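import Mathlib
import Pool.Agent.H.MP_f4ff42_al.A

set_option autoImplicit false

namespace Pool.Agent.Results.MP_f4ff42_al.NotFG

theorem result : ∃ (S : Type) (_ : Semigroup S),
    (∀ x : S, ∃ (G : Type) (_ : Group G) (φ : G →ₙ* S),
      Function.Injective φ ∧ x ∈ Set.range φ) ∧
    (∀ ρ : Setoid S, (∀ a b s, ρ a b → ρ (a * s) (b * s)) → Finite (Quotient ρ) →
      ∃ X : Finset (S × S), (∀ p ∈ X, ρ p.1 p.2) ∧
        ∀ τ : Setoid S, (∀ a b s, τ a b → τ (a * s) (b * s)) → (∀ p ∈ X, τ p.1 p.2) →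
          ∀ a b, ρ a b → τ a b) ∧
    ¬ ∃ F : Finset S, Subsemigroup.closure (F : Set S) = ⊤ :=
  ⟨H.MP_f4ff42_al.S, inferInstance, H.MP_f4ff42_al.cr,
    fun ρ hρ _ => H.MP_f4ff42_al.fnoeth ρ hρ, H.MP_f4ff42_al.notfg⟩

end Pool.Agent.Results.MP_f4ff42_al.NotFG
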